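import Pool.Agent.Helper87.CA.Goals

/-!
Packet CA-ET (Erdos-Turan with all error terms) for MP_c5396e_co.
-/

set_option autoImplicit false

open Finset

namespace Pool.Agent.Helper3.CA

open Pool.Agent.Helper87.CA

theorem wt2_zero (u : ℕ) : wt2 u 0 = (u : ℝ) ^ 2 := by
  have h : (0 : ℝ) ≤ (u : ℝ) := Nat.cast_nonneg u
  simp [wt2, h, sq]

theorem wt2_off (u : ℕ) (δ : ℤ × ℤ) (h : wt2 u δ ≠ 0) : δ ∈ Box u := by
  have h1 : max 0 ((u : ℝ) - |(δ.1 : ℝ)|) ≠ 0 := fun h0 => h (by simp [wt2, h0])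
  have h2 : max 0 ((u : ℝ) - |(δ.2 : ℝ)|) ≠ 0 := fun h0 => h (by simp [wt2, h0])
  have h3 : |(δ.1 : ℝ)| < u := by
    by_contra hc
    exact h1 (max_eq_left (by linarith [not_lt.1 hc]))
  have h4 : |(δ.2 : ℝ)| < u := by
    by_contra hc
    exact h2 (max_eq_left (by linarith [not_lt.1 hc]))
  have h5 : |δ.1| < (u : ℤ) := by exact_mod_cast h3
  have h6 : |δ.2| < (u : ℤ) := by exact_mod_cast h4
  rw [abs_lt] at h5 h6
  simp [Box, h5, h6]

theorem zero_notMem_DD {n : ℕ} (f : Fin n → Fin n) : (0 : ℤ × ℤ) ∉ DD f := by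
  intro h
  simp only [DD, mem_image, mem_filter, mem_univ, true_and] at h
  obtain ⟨p, hp, h0⟩ := h
  apply hp
  have h1 : (pt f p.1).1 - (pt f p.2).1 = 0 := by
    have := congrArg Prod.fst h0
    simpa using this
  have h2 : (((p.1 : ℕ) : ℤ)) - ((p.2 : ℕ) : ℤ) = 0 := h1
  have h3 : ((p.1 : ℕ) : ℤ) = ((p.2 : ℕ) : ℤ) := by linarith
  exact Fin.ext (by exact_mod_cast h3)

theorem gET : G_ET := by
  intro hW n u f hf hu hun
  obtain ⟨hW1, hW2, hW3⟩ := hW
  have hn : 1 ≤ n := hu.trans hun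
  have hnR : (0 : ℝ) < n := by exact_mod_cast hn
  have huR : (1 : ℝ) ≤ u := by exact_mod_cast hu
  have hunR : (u : ℝ) ≤ n := by exact_mod_cast hun
  have h1 : ∑ t ∈ Om n u, (cw u f univ t : ℝ) ^ 2 =
      ∑ i : Fin n, ∑ j : Fin n, wt2 u (pt f i - pt f j) := by
    have := hW1 n u f f univ univ
    simpa [sq] using this
  have h2 : ∑ t ∈ Om n u, (cw u f univ t : ℝ) = n * (u : ℝ) ^ 2 := by
    simpa using hW2 n u f univ
  have h3 : ∑ i : Fin n, ∑ j : Fin n, wt2 u (pt f i - pt f j) = n * (u : ℝ) ^ 2 +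
      ∑ p ∈ (univ : Finset (Fin n × Fin n)).filter (fun p => p.1 ≠ p.2),
        wt2 u (pt f p.1 - pt f p.2) := by
    rw [← Finset.sum_product', Finset.univ_product_univ,
      ← Finset.sum_filter_add_sum_filter_not (univ : Finset (Fin n × Fin n))
        (fun p => p.1 = p.2)]
    congr 1
    have : ∀ p ∈ (univ : Finset (Fin n × Fin n)).filter (fun p => p.1 = p.2),
        wt2 u (pt f p.1 - pt f p.2) = (u : ℝ) ^ 2 := by
      intro p hp
      rw [(Finset.mem_filter.1 hp).2, sub_self, wt2_zero]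
    rw [Finset.sum_congr rfl this, Finset.sum_const, nsmul_eq_mul]
    congr 1
    have hc : ((univ : Finset (Fin n × Fin n)).filter (fun p => p.1 = p.2)).card = n := by
      have : (univ : Finset (Fin n × Fin n)).filter (fun p => p.1 = p.2) =
          (univ : Finset (Fin n)).image (fun i => (i, i)) := by
        ext ⟨a, b⟩
        simp only [mem_filter, mem_univ, true_and, mem_image, Prod.mk.injEq]
        constructor
        · rintro rfl
          exact ⟨a, rfl, rfl⟩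
        · rintro ⟨c, rfl, rfl⟩
          rfl
      rw [this, Finset.card_image_of_injective _ (fun a b h => (Prod.mk.inj h).1)]
      simp
    exact_mod_cast hc
  have h4 : ∑ p ∈ (univ : Finset (Fin n × Fin n)).filter (fun p => p.1 ≠ p.2),
      wt2 u (pt f p.1 - pt f p.2) = ∑ δ ∈ DD f, wt2 u δ := by
    rw [DD, Finset.sum_image]
    intro p hp q hq h
    have hp' : p.1 ≠ p.2 := (Finset.mem_filter.1 hp).2
    obtain ⟨ha, hb⟩ := hf p.1 p.2 q.1 q.2 hp' h
    exact Prod.ext ha hb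
  have h5 : ∑ δ ∈ DD f, wt2 u δ = ∑ δ ∈ (Box u).filter (fun δ => δ ≠ 0 ∧ δ ∈ DD f), wt2 u δ := by
    rw [← Finset.sum_filter_of_ne (p := fun δ => δ ∈ Box u) (fun δ _ h => wt2_off u δ h)]
    apply Finset.sum_congr _ (fun _ _ => rfl)
    ext δ
    simp only [mem_filter]
    constructor
    · rintro ⟨ha, hb⟩
      exact ⟨hb, fun h0 => zero_notMem_DD f (h0 ▸ ha), ha⟩
    · rintro ⟨ha, _, hb⟩
      exact ⟨hb, ha⟩
  have h0B : (0 : ℤ × ℤ) ∈ Box u := by
    apply wt2_off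
    rw [wt2_zero]
    positivity
  have h6 : (u : ℝ) ^ 4 = (u : ℝ) ^ 2 +
      (∑ δ ∈ (Box u).filter (fun δ => δ ≠ 0 ∧ δ ∈ DD f), wt2 u δ + miss u f) := by
    rw [← hW3 u, ← Finset.sum_filter_add_sum_filter_not (Box u) (fun δ => δ = 0)]
    congr 1
    · have : (Box u).filter (fun δ => δ = 0) = {0} := by
        ext δ
        simp only [mem_filter, mem_singleton]
        constructor
        · exact fun h => h.2
        · rintro rfl
          exact ⟨h0B, rfl⟩
      rw [this, Finset.sum_singleton, wt2_zero]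
    · rw [← Finset.sum_filter_add_sum_filter_not ((Box u).filter (fun δ => ¬ δ = 0))
        (fun δ => δ ∈ DD f), Finset.filter_filter, Finset.filter_filter]
      rfl
  have h7 : ∑ t ∈ Om n u, (cw u f univ t : ℝ) ^ 2 + miss u f =
      n * (u : ℝ) ^ 2 + (u : ℝ) ^ 4 - (u : ℝ) ^ 2 := by
    rw [h1, h3, h4, h5]
    linarith
  have hcard : ((Om n u).card : ℝ) ≤ ((n : ℝ) + u) ^ 2 := by
    have hc : (Om n u).card = (n + u - 1) ^ 2 := by
      rw [Om, Finset.card_product, Int.card_Ioo]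
      have : ((n : ℤ) - -(u : ℤ) - 1).toNat = n + u - 1 := by omega
      rw [this, sq]
    rw [hc]
    have : (((n + u - 1 : ℕ) : ℝ)) ≤ (n : ℝ) + u := by
      have : n + u - 1 ≤ n + u := Nat.sub_le _ _
      exact_mod_cast this
    push_cast
    exact pow_le_pow_left₀ (by positivity) this 2
  have h8 : ∑ t ∈ Om n u, ((cw u f univ t : ℝ) - (u : ℝ) ^ 2 / n) ^ 2 =
      ∑ t ∈ Om n u, (cw u f univ t : ℝ) ^ 2 -
        2 * ((u : ℝ) ^ 2 / n) * ∑ t ∈ Om n u, (cw u f univ t : ℝ) +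
        (Om n u).card * ((u : ℝ) ^ 2 / n) ^ 2 := by
    rw [Finset.mul_sum, ← Finset.sum_sub_distrib, ← nsmul_eq_mul, ← Finset.sum_const,
      ← Finset.sum_add_distrib]
    apply Finset.sum_congr rfl
    intro t _
    ring
  have h9 : ((Om n u).card : ℝ) * ((u : ℝ) ^ 2 / n) ^ 2 ≤
      (u : ℝ) ^ 4 + 3 * (u : ℝ) ^ 5 / n := by
    calc ((Om n u).card : ℝ) * ((u : ℝ) ^ 2 / n) ^ 2
        ≤ ((n : ℝ) + u) ^ 2 * ((u : ℝ) ^ 2 / n) ^ 2 :=
          mul_le_mul_of_nonneg_right hcard (by positivity)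
      _ = (u : ℝ) ^ 4 * (1 + (u : ℝ) / n) ^ 2 := by field_simp
      _ ≤ (u : ℝ) ^ 4 * (1 + 3 * ((u : ℝ) / n)) := by
          apply mul_le_mul_of_nonneg_left _ (by positivity)
          have hx0 : 0 ≤ (u : ℝ) / n := by positivity
          have hx1 : (u : ℝ) / n ≤ 1 := by
            rw [div_le_one hnR]
            exact hunR
          nlinarith
      _ = (u : ℝ) ^ 4 + 3 * (u : ℝ) ^ 5 / n := by ring
  have h10 : 2 * ((u : ℝ) ^ 2 / n) * (n * (u : ℝ) ^ 2) = 2 * (u : ℝ) ^ 4 := by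
    field_simp
  rw [h8, h2, h10]
  nlinarith [h7, h9]

end Pool.Agent.Helper3.CA
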